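import Pool.Agent.Y6.F.Chn

/-!
Growth of a driven pair.
-/

open Set Filter Topology
open scoped ComplexConjugate

set_option autoImplicit false

namespace Pool.Agent.Y141.EF.Paira

open Pool.Agent.Y6.F

section
variable {ρ τ κ E θ : ℝ} {p A B F H : ℝ → ℂ}

theorem contA (h : PairF ρ τ κ E θ p A B F H) : ContinuousOn A (Icc 0 θ) :=
  fun t ht => (h.dA t ht).continuousWithinAt

theorem contB (h : PairF ρ τ κ E θ p A B F H) : ContinuousOn B (Icc 0 θ) :=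
  fun t ht => (h.dB t ht).continuousWithinAt

/-- the cone valued integral -/
theorem cone (h : PairF ρ τ κ E θ p A B F H) (hpr : ∀ t ∈ Icc (0 : ℝ) θ, 0 ≤ (p t).re) :
    ∃ S : ℝ → ℂ, S 0 = 0 ∧
    (∀ t ∈ Icc (0 : ℝ) θ, |(S t).im| ≤ τ * (S t).re ∧ 0 ≤ (S t).re) ∧
    (∀ t ∈ Icc (0 : ℝ) θ, HasDerivWithinAt S
      ((ρ : ℂ) * p t * ((‖A t‖ ^ 2 + ‖B t‖ ^ 2 : ℝ) : ℂ)) (Icc 0 θ) t) := by
  obtain ⟨g, hg⟩ : ∃ g : ℝ → ℂ, ∀ t, g t =
    (ρ : ℂ) * p t * ((‖A t‖ ^ 2 + ‖B t‖ ^ 2 : ℝ) : ℂ) := ⟨_, fun t => rfl⟩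
  have hc : ContinuousOn g (Icc 0 θ) := by
    have h1 := contA h
    have h2 := contB h
    have h3 := h.pc
    have h4 := (continuousOn_const (c := (ρ : ℂ))).mul h3 |>.mul
      (Complex.continuous_ofReal.comp_continuousOn ((h1.norm.pow 2).add (h2.norm.pow 2)))
    exact h4.congr fun t ht => by simp [hg]
  obtain ⟨G, hGc, hGe⟩ : ∃ G : ℝ → ℂ, Continuous G ∧ ∀ t ∈ Icc (0 : ℝ) θ, G t = g t := by
    refine ⟨IccExtend h.hθ (fun x : Icc (0 : ℝ) θ => g x), ?_, ?_⟩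
    · apply Continuous.Icc_extend'
      exact continuousOn_iff_continuous_domRestrict.mp hc
    · intro t ht
      rw [IccExtend_of_mem _ _ ht]
  refine ⟨fun t => ∫ r in (0 : ℝ)..t, G r, by simp, ?_, ?_⟩
  · intro t ht
    have hre : (∫ r in (0 : ℝ)..t, G r).re = ∫ r in (0 : ℝ)..t, (G r).re :=
      (Complex.reCLM.intervalIntegral_comp_comm (hGc.intervalIntegrable 0 t)).symm
    have him : (∫ r in (0 : ℝ)..t, G r).im = ∫ r in (0 : ℝ)..t, (G r).im :=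
      (Complex.imCLM.intervalIntegral_comp_comm (hGc.intervalIntegrable 0 t)).symm
    simp only []
    have key : ∀ r ∈ Icc 0 t, |(G r).im| ≤ τ * (G r).re ∧ 0 ≤ (G r).re := by
      intro r hr
      have hr' : r ∈ Icc (0 : ℝ) θ := ⟨hr.1, hr.2.trans ht.2⟩
      rw [hGe r hr', hg]
      have hp := (h.ps r hr').1
      have hρ : 0 ≤ ρ := zero_le_one.trans h.hρ
      have e1 : ((ρ : ℂ) * p r * ((‖A r‖ ^ 2 + ‖B r‖ ^ 2 : ℝ) : ℂ)).im =
          ρ * (‖A r‖ ^ 2 + ‖B r‖ ^ 2) * (p r).im := by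
        rw [Complex.im_mul_ofReal, Complex.im_ofReal_mul]; ring
      have e2 : ((ρ : ℂ) * p r * ((‖A r‖ ^ 2 + ‖B r‖ ^ 2 : ℝ) : ℂ)).re =
          ρ * (‖A r‖ ^ 2 + ‖B r‖ ^ 2) * (p r).re := by
        rw [Complex.re_mul_ofReal, Complex.re_ofReal_mul]; ring
      have hw : 0 ≤ ρ * (‖A r‖ ^ 2 + ‖B r‖ ^ 2) := by positivity
      rw [e1, e2, abs_mul, abs_of_nonneg hw]
      exact ⟨by nlinarith [mul_le_mul_of_nonneg_left hp hw], mul_nonneg hw (hpr r hr')⟩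
    rw [hre, him]
    refine ⟨?_, intervalIntegral.integral_nonneg ht.1 fun r hr => (key r hr).2⟩
    rw [← intervalIntegral.integral_const_mul]
    have hIm : Continuous fun r => (G r).im := Complex.continuous_im.comp hGc
    have hRe : Continuous fun r => τ * (G r).re := continuous_const.mul (Complex.continuous_re.comp hGc)
    refine (intervalIntegral.abs_integral_le_integral_abs ht.1).trans ?_
    refine intervalIntegral.integral_mono_on ht.1 (hIm.abs.intervalIntegrable 0 t)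
      (hRe.intervalIntegrable 0 t) ?_
    exact fun r hr => (key r hr).1
  · intro t ht
    have h1 := (hGc.integral_hasStrictDerivAt 0 t).hasDerivAt.hasDerivWithinAt (s := Icc 0 θ)
    rw [hGe t ht, hg] at h1
    exact h1

/-- the product `B conj A` is close to the cone -/
theorem errW (h : PairF ρ τ κ E θ p A B F H) (hpr : ∀ t ∈ Icc (0 : ℝ) θ, 0 ≤ (p t).re) :
    ∃ S : ℝ → ℂ, (∀ t ∈ Icc (0 : ℝ) θ, |(S t).im| ≤ τ * (S t).re ∧ 0 ≤ (S t).re) ∧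
    ∀ T ∈ Icc (0 : ℝ) θ, ∀ M : ℝ, (∀ r ∈ Icc 0 T, ‖A r‖ ≤ M ∧ ‖B r‖ ≤ M) →
      ∀ t ∈ Icc 0 T, ‖B t * conj (A t) - S t‖ ≤ 2 * κ * M ^ 2 := by
  obtain ⟨S, S0, hS, dS⟩ := cone h hpr
  refine ⟨S, hS, ?_⟩
  intro T hT M hM t ht
  have hM0 : 0 ≤ M := (norm_nonneg _).trans (hM 0 ⟨le_rfl, hT.1⟩).1
  have hsub : Icc 0 T ⊆ Icc 0 θ := Icc_subset_Icc le_rfl hT.2
  have hd : ∀ r ∈ Icc (0 : ℝ) T, HasDerivWithinAt (fun t => B t * conj (A t) - S t)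
      (H r * conj (A r) + B r * conj (F r)) (Icc 0 T) r := by
    intro r hr
    have hr' := hsub hr
    have h1 := (h.dA r hr').mono hsub
    have h2 := (h.dB r hr').mono hsub
    have h3 := (dS r hr').mono hsub
    have h4 := (h2.mul h1.star).sub h3
    have e : ((ρ : ℂ) * p r * A r + H r) * star (A r) + B r * star ((ρ : ℂ) * conj (p r) * B r + F r)
        - (ρ : ℂ) * p r * ((‖A r‖ ^ 2 + ‖B r‖ ^ 2 : ℝ) : ℂ) =
        H r * conj (A r) + B r * conj (F r) := by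
      have e1 : ((‖A r‖ ^ 2 + ‖B r‖ ^ 2 : ℝ) : ℂ) = A r * conj (A r) + B r * conj (B r) := by
        push_cast
        rw [Complex.mul_conj', Complex.mul_conj']
      rw [e1]
      simp only [RCLike.star_def, map_add, map_mul, Complex.conj_conj, Complex.conj_ofReal]
      ring
    rw [← e]
    exact h4
  have hb : ∀ r ∈ Ico (0 : ℝ) T, ‖H r * conj (A r) + B r * conj (F r)‖ ≤ 2 * κ * M ^ 2 := by
    intro r hr
    have hr1 : r ∈ Icc (0 : ℝ) T := ⟨hr.1, hr.2.le⟩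
    have hr' := hsub hr1
    obtain ⟨s, hs, hF, hH⟩ := h.small r hr'
    have hs' : s ∈ Icc (0 : ℝ) T := ⟨hs.1, hs.2.trans hr.2.le⟩
    have hm : max ‖A s‖ ‖B s‖ ≤ M := max_le (hM s hs').1 (hM s hs').2
    have hF' : ‖F r‖ ≤ κ * M := hF.trans (mul_le_mul_of_nonneg_left hm h.hκ)
    have hH' : ‖H r‖ ≤ κ * M := hH.trans (mul_le_mul_of_nonneg_left hm h.hκ)
    have h0 : 0 ≤ κ * M := mul_nonneg h.hκ hM0
    calc ‖H r * conj (A r) + B r * conj (F r)‖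
        ≤ ‖H r * conj (A r)‖ + ‖B r * conj (F r)‖ := norm_add_le _ _
      _ = ‖H r‖ * ‖A r‖ + ‖B r‖ * ‖F r‖ := by
          rw [norm_mul, norm_mul, RCLike.norm_conj, RCLike.norm_conj]
      _ ≤ (κ * M) * M + M * (κ * M) :=
          add_le_add (mul_le_mul hH' (hM r hr1).1 (norm_nonneg _) h0)
            (mul_le_mul (hM r hr1).2 hF' (norm_nonneg _) hM0)
      _ = 2 * κ * M ^ 2 := by ring
  have h5 := norm_image_sub_le_of_norm_deriv_le_segment' hd hb t ht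
  simp only [h.B0, S0, zero_mul, sub_zero] at h5
  refine h5.trans ?_
  have h6 : 0 ≤ 2 * κ * M ^ 2 := by have := h.hκ; positivity
  have h7 : t ≤ 1 := ht.2.trans (hT.2.trans h.hθ')
  nlinarith [mul_le_mul_of_nonneg_left h7 h6]

/-- the algebraic lower bound for the derivative of `‖A + B‖ ^ 2` -/
theorem alg (ρ τ ε δ : ℝ) (p A B F H S : ℂ) (hρ : 0 ≤ ρ) (hτ : 0 ≤ τ) (hτ' : τ ≤ 1 / 10)
    (hp : |p.im| ≤ τ * p.re) (hpr : 0 ≤ p.re) (hS : |S.im| ≤ τ * S.re)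
    (he : ‖B * conj A - S‖ ≤ ε) (hF : ‖F‖ ≤ δ) (hH : ‖H‖ ≤ δ) :
    2 * ρ * p.re * (995 / 1000 * ‖A + B‖ ^ 2 - 22 / 100 * ε) - 4 * δ * ‖A + B‖ ≤
      2 * (((ρ : ℂ) * conj p * B + F + ((ρ : ℂ) * p * A + H)) * conj (A + B)).re := by
  have hε : 0 ≤ ε := (norm_nonneg _).trans he
  obtain ⟨N2, hN⟩ : ∃ N2 : ℝ, N2 = ‖A + B‖ ^ 2 := ⟨_, rfl⟩
  obtain ⟨W, hW⟩ : ∃ W : ℂ, W = B * conj A := ⟨_, rfl⟩
  have hN0 : 0 ≤ N2 := by rw [hN]; positivity
  rw [← hN]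
  rw [← hW] at he
  have e1 : ((ρ : ℂ) * conj p * B + F + ((ρ : ℂ) * p * A + H)) * conj (A + B) =
      (ρ : ℂ) * ((conj p * B + p * A) * conj (A + B)) + (F + H) * conj (A + B) := by ring
  have e2 : ((conj p * B + p * A) * conj (A + B)).re = p.re * N2 + 2 * (p.im * W.im) := by
    rw [hN, hW, ← Complex.normSq_eq_norm_sq, Complex.normSq_apply]
    simp
    ring
  have h1 : 4 * W.re ≤ N2 := by
    rw [hN, hW, ← Complex.normSq_eq_norm_sq, Complex.normSq_apply]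
    simp
    nlinarith [sq_nonneg (A.re - B.re), sq_nonneg (A.im - B.im)]
  have h2 : |W.im| ≤ τ * (W.re + ε) + ε := by
    have a1 : |W.im - S.im| ≤ ε := by
      rw [← Complex.sub_im]; exact (Complex.abs_im_le_norm _).trans he
    have a2 : |W.re - S.re| ≤ ε := by
      rw [← Complex.sub_re]; exact (Complex.abs_re_le_norm _).trans he
    have a3 : S.re ≤ W.re + ε := by linarith [(abs_le.mp a2).1]
    have a4 : |W.im| ≤ |S.im| + |W.im - S.im| := by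
      have := abs_add_le S.im (W.im - S.im)
      simpa using this
    nlinarith [mul_le_mul_of_nonneg_left a3 hτ]
  have h3 : |p.im * W.im| ≤ p.re * (N2 / 400 + 11 / 100 * ε) := by
    rw [abs_mul]
    have b1 : τ * (W.re + ε) + ε ≤ N2 / 40 + 11 / 10 * ε := by
      have c1 : W.re + ε ≤ N2 / 4 + ε := by linarith
      have c2 := mul_le_mul_of_nonneg_left c1 hτ
      have c3 : 0 ≤ N2 / 4 + ε := by positivity
      have c4 := mul_le_mul_of_nonneg_right hτ' c3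
      linarith
    have b2 : |W.im| ≤ N2 / 40 + 11 / 10 * ε := h2.trans b1
    have b3 : |p.im| ≤ 1 / 10 * p.re := hp.trans (mul_le_mul_of_nonneg_right hτ' hpr)
    calc |p.im| * |W.im| ≤ (1 / 10 * p.re) * (N2 / 40 + 11 / 10 * ε) :=
          mul_le_mul b3 b2 (abs_nonneg _) (by positivity)
      _ = p.re * (N2 / 400 + 11 / 100 * ε) := by ring
  have h4 : -(2 * δ * ‖A + B‖) ≤ ((F + H) * conj (A + B)).re := by
    have c1 : ‖(F + H) * conj (A + B)‖ ≤ 2 * δ * ‖A + B‖ := by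
      rw [norm_mul, RCLike.norm_conj]
      refine mul_le_mul_of_nonneg_right ?_ (norm_nonneg _)
      exact (norm_add_le _ _).trans (by linarith)
    have c2 := (abs_le.mp (Complex.abs_re_le_norm ((F + H) * conj (A + B)))).1
    linarith
  rw [e1, Complex.add_re, Complex.re_ofReal_mul, e2]
  have h5 : p.re * N2 - 2 * (p.re * (N2 / 400 + 11 / 100 * ε)) ≤
      p.re * N2 + 2 * (p.im * W.im) := by linarith [(abs_le.mp h3).1]
  have h6 := mul_le_mul_of_nonneg_left h5 hρ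
  nlinarith [h6, h4]

/-- the derivative of `‖A + B‖ ^ 2` -/
theorem dN2 (h : PairF ρ τ κ E θ p A B F H) : ∀ t ∈ Icc (0 : ℝ) θ,
    HasDerivWithinAt (fun t => ‖A t + B t‖ ^ 2)
      (2 * (((ρ : ℂ) * conj (p t) * B t + F t + ((ρ : ℂ) * p t * A t + H t)) *
        conj (A t + B t)).re) (Icc 0 θ) t := by
  intro t ht
  have h1 := ((h.dA t ht).add (h.dB t ht)).norm_sq
  rw [Complex.inner] at h1
  exact h1

/-- bootstrap from a point of maximum -/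
theorem boot (h : PairF ρ τ κ E θ p A B F H) (hpr : ∀ t ∈ Icc (0 : ℝ) θ, 0 ≤ (p t).re)
    (S : ℝ → ℂ) (hS : ∀ t ∈ Icc (0 : ℝ) θ, |(S t).im| ≤ τ * (S t).re ∧ 0 ≤ (S t).re)
    (T : ℝ) (hT : T ∈ Icc (0 : ℝ) θ) (M c : ℝ) (hc : 0 < c)
    (he : ∀ t ∈ Icc 0 T, ‖B t * conj (A t) - S t‖ ≤ 2 * κ * M ^ 2)
    (hFH : ∀ t ∈ Icc 0 T, ‖F t‖ ≤ κ * M ∧ ‖H t‖ ≤ κ * M)
    (hMc : M ^ 2 ≤ c ^ 2 + 4 * κ * M ^ 2)
    (s : ℝ) (hs : s ∈ Icc 0 T) (hsc : ‖A s + B s‖ = c) (hle : ∀ t ∈ Icc 0 T, ‖A t + B t‖ ≤ c) :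
    c ^ 2 * (1 - 44 / 10 * κ) ≤ ‖A T + B T‖ ^ 2 := by
  have hκ := h.hκ
  have hκ' := h.hκ'
  have hc2 : 0 < c ^ 2 := by positivity
  have hM1 : M ^ 2 ≤ 1001 / 1000 * c ^ 2 := by
    nlinarith [mul_le_mul_of_nonneg_right hκ' (sq_nonneg M)]
  by_contra hcon
  push Not at hcon
  -- choose δ
  obtain ⟨δ, hδ, hδ1, hδ2⟩ : ∃ δ : ℝ, 0 < δ ∧ δ ≤ c ^ 2 / 4 ∧
      ‖A T + B T‖ ^ 2 < c ^ 2 * (1 - 44 / 10 * κ) - δ := by
    refine ⟨min (c ^ 2 / 4) ((c ^ 2 * (1 - 44 / 10 * κ) - ‖A T + B T‖ ^ 2) / 2),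
      lt_min (by positivity) (by linarith), min_le_left _ _, ?_⟩
    have := min_le_right (c ^ 2 / 4) ((c ^ 2 * (1 - 44 / 10 * κ) - ‖A T + B T‖ ^ 2) / 2)
    linarith
  have hsub : Icc s T ⊆ Icc 0 θ := Icc_subset_Icc hs.1 hT.2
  have hT1 : T ≤ 1 := hT.2.trans h.hθ'
  have main := image_le_of_deriv_right_lt_deriv_boundary' (a := s) (b := T)
    (f := fun t => -‖A t + B t‖ ^ 2)
    (f' := fun t => -(2 * (((ρ : ℂ) * conj (p t) * B t + F t + ((ρ : ℂ) * p t * A t + H t)) *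
        conj (A t + B t)).re))
    (B := fun t => -c ^ 2 + (44 / 10 * κ * c ^ 2 + δ) * (t - s))
    (B' := fun _ => 44 / 10 * κ * c ^ 2 + δ)
    (fun t ht => ((dN2 h t (hsub ht)).neg.mono hsub).continuousWithinAt) ?_ ?_ ?_ ?_ ?_
  · have h1 := main ⟨hs.2, le_rfl⟩
    have h2 : T - s ≤ 1 := by linarith [hs.1]
    have h3 : 0 ≤ 44 / 10 * κ * c ^ 2 + δ := by positivity
    nlinarith [mul_le_mul_of_nonneg_left h2 h3]
  · intro t ht
    have ht' : t ∈ Icc (0 : ℝ) θ := hsub ⟨ht.1, ht.2.le⟩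
    have h1 := (dN2 h t ht').neg
    refine h1.mono_of_mem_nhdsWithin ?_
    refine mem_of_superset (Icc_mem_nhdsGE ht.2) ?_
    exact Icc_subset_Icc (hs.1.trans ht.1) hT.2
  · simp [hsc]
  · fun_prop
  · intro t ht
    have h1 : HasDerivAt (fun t => -c ^ 2 + (44 / 10 * κ * c ^ 2 + δ) * (t - s))
        (44 / 10 * κ * c ^ 2 + δ) t := by
      have := ((hasDerivAt_id t).sub_const s).const_mul (44 / 10 * κ * c ^ 2 + δ)
      simpa using this.const_add (-c ^ 2)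
    exact h1.hasDerivWithinAt
  · intro t ht heq
    have ht0 : t ∈ Icc (0 : ℝ) T := ⟨hs.1.trans ht.1, ht.2.le⟩
    have ht' : t ∈ Icc (0 : ℝ) θ := hsub ⟨ht.1, ht.2.le⟩
    have h1 := alg ρ τ (2 * κ * M ^ 2) (κ * M) (p t) (A t) (B t) (F t) (H t) (S t)
      (zero_le_one.trans h.hρ) h.hτ.le h.hτ' (h.ps t ht').1 (hpr t ht') (hS t ht').1
      (he t ht0) (hFH t ht0).1 (hFH t ht0).2
    have h2 : t - s ≤ 1 := by linarith [hs.1, ht.2]
    have h20 : 0 ≤ t - s := by linarith [ht.1]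
    have h3 : 0 ≤ 44 / 10 * κ * c ^ 2 + δ := by positivity
    have h4 : c ^ 2 / 2 ≤ ‖A t + B t‖ ^ 2 := by
      have := mul_le_mul_of_nonneg_left h2 h3
      nlinarith [mul_le_mul_of_nonneg_right hκ' hc2.le]
    have h5 : 0 ≤ 995 / 1000 * ‖A t + B t‖ ^ 2 - 22 / 100 * (2 * κ * M ^ 2) := by
      have : κ * M ^ 2 ≤ 1 / 10 ^ 4 * (1001 / 1000 * c ^ 2) :=
        mul_le_mul hκ' hM1 (sq_nonneg M) (by norm_num)
      nlinarith
    have h6 : 0 ≤ 2 * ρ * (p t).re * (995 / 1000 * ‖A t + B t‖ ^ 2 -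
        22 / 100 * (2 * κ * M ^ 2)) := by
      have h61 := hpr t ht'
      have h62 : 0 ≤ ρ := zero_le_one.trans h.hρ
      positivity
    have h7 : 4 * (κ * M) * ‖A t + B t‖ ≤ 44 / 10 * κ * c ^ 2 := by
      have h71 : M * ‖A t + B t‖ ≤ 11 / 10 * c ^ 2 := by
        have h72 := hle t ht0
        have h73 : ‖A t + B t‖ ^ 2 ≤ c ^ 2 := by
          have := norm_nonneg (A t + B t)
          nlinarith
        nlinarith [sq_nonneg (M - ‖A t + B t‖)]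
      nlinarith [mul_le_mul_of_nonneg_left h71 hκ]
    linarith

/-- the difference of the squares -/
theorem qlow (h : PairF ρ τ κ E θ p A B F H) (T : ℝ) (hT : T ∈ Icc (0 : ℝ) θ) (M : ℝ)
    (hM : ∀ r ∈ Icc 0 T, ‖A r‖ ≤ M ∧ ‖B r‖ ≤ M ∧ ‖F r‖ ≤ κ * M ∧ ‖H r‖ ≤ κ * M) :
    -(4 * κ * M ^ 2) ≤ ‖A T‖ ^ 2 - ‖B T‖ ^ 2 := by
  have hM0 : 0 ≤ M := (norm_nonneg _).trans (hM 0 ⟨le_rfl, hT.1⟩).1
  have hκ := h.hκ
  have hsub : Icc 0 T ⊆ Icc 0 θ := Icc_subset_Icc le_rfl hT.2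
  have hd : ∀ r ∈ Icc (0 : ℝ) T, HasDerivWithinAt (fun t => ‖A t‖ ^ 2 - ‖B t‖ ^ 2)
      (2 * (F r * conj (A r)).re - 2 * (H r * conj (B r)).re) (Icc 0 T) r := by
    intro r hr
    have hr' := hsub hr
    have h1 := ((h.dA r hr').mono hsub).norm_sq
    have h2 := ((h.dB r hr').mono hsub).norm_sq
    rw [Complex.inner] at h1 h2
    have h3 := h1.sub h2
    have e : 2 * (((ρ : ℂ) * conj (p r) * B r + F r) * conj (A r)).re -
        2 * (((ρ : ℂ) * p r * A r + H r) * conj (B r)).re =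
        2 * (F r * conj (A r)).re - 2 * (H r * conj (B r)).re := by
      simp
      ring
    rw [← e]
    exact h3
  have hb : ∀ r ∈ Ico (0 : ℝ) T,
      ‖2 * (F r * conj (A r)).re - 2 * (H r * conj (B r)).re‖ ≤ 4 * κ * M ^ 2 := by
    intro r hr
    obtain ⟨a1, a2, a3, a4⟩ := hM r ⟨hr.1, hr.2.le⟩
    have h0 : 0 ≤ κ * M := mul_nonneg h.hκ hM0
    have b1 : |(F r * conj (A r)).re| ≤ κ * M * M := by
      refine (Complex.abs_re_le_norm _).trans ?_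
      rw [norm_mul, RCLike.norm_conj]
      exact mul_le_mul a3 a1 (norm_nonneg _) h0
    have b2 : |(H r * conj (B r)).re| ≤ κ * M * M := by
      refine (Complex.abs_re_le_norm _).trans ?_
      rw [norm_mul, RCLike.norm_conj]
      exact mul_le_mul a4 a2 (norm_nonneg _) h0
    rw [Real.norm_eq_abs, abs_le]
    rw [abs_le] at b1 b2
    constructor <;> nlinarith [b1.1, b1.2, b2.1, b2.2]
  have h5 := norm_image_sub_le_of_norm_deriv_le_segment' hd hb T ⟨hT.1, le_rfl⟩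
  simp only [h.A0, h.B0, norm_zero, sub_zero] at h5
  rw [Real.norm_eq_abs] at h5
  have h6 := (abs_le.mp h5).1
  have h7 : T ≤ 1 := hT.2.trans h.hθ'
  have h8 : 0 ≤ 4 * κ * M ^ 2 := by positivity
  have h9 := mul_le_mul_of_nonneg_left h7 h8
  have h10 : 0 ≤ ‖(E : ℂ)‖ ^ 2 := by positivity
  have h11 : (0 : ℝ) ^ 2 = 0 := by norm_num
  rw [h11] at h6
  linarith

theorem sumsq (z w : ℂ) : ‖z‖ ^ 2 + ‖w‖ ^ 2 = ‖z + w‖ ^ 2 - 2 * (w * conj z).re := by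
  rw [← Complex.normSq_eq_norm_sq, ← Complex.normSq_eq_norm_sq, ← Complex.normSq_eq_norm_sq,
    Complex.normSq_apply, Complex.normSq_apply, Complex.normSq_apply]
  simp
  ring

theorem sumsq_le (z w S : ℂ) (ε : ℝ) (hS : 0 ≤ S.re) (h : ‖w * conj z - S‖ ≤ ε) :
    ‖z‖ ^ 2 + ‖w‖ ^ 2 ≤ ‖z + w‖ ^ 2 + 2 * ε := by
  have h1 := (abs_le.mp ((Complex.abs_re_le_norm _).trans h)).1
  rw [Complex.sub_re] at h1
  rw [sumsq]
  linarith

/-- comparison of the maximum with the value at the end -/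
theorem key (h : PairF ρ τ κ E θ p A B F H) (hpr : ∀ t ∈ Icc (0 : ℝ) θ, 0 ≤ (p t).re)
    (T : ℝ) (hT : T ∈ Icc (0 : ℝ) θ) : 0 < ‖A T + B T‖ ∧ ∃ M : ℝ, 0 ≤ M ∧
      (∀ r ∈ Icc 0 T, ‖A r‖ ≤ M ∧ ‖B r‖ ≤ M ∧ ‖F r‖ ≤ κ * M ∧ ‖H r‖ ≤ κ * M) ∧
      M ^ 2 ≤ (1 + 9 * κ) * ‖A T + B T‖ ^ 2 ∧ ∃ S : ℂ, |S.im| ≤ τ * S.re ∧ 0 ≤ S.re ∧
      ‖B T * conj (A T) - S‖ ≤ 2 * κ * M ^ 2 := by
  have hκ := h.hκ
  have hκ' := h.hκ'
  obtain ⟨S, hS, herr⟩ := errW h hpr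
  have hsub : Icc 0 T ⊆ Icc 0 θ := Icc_subset_Icc le_rfl hT.2
  have cA := (contA h).mono hsub
  have cB := (contB h).mono hsub
  have hne : (Icc 0 T).Nonempty := nonempty_Icc.2 hT.1
  obtain ⟨r0, hr0, hmax⟩ := isCompact_Icc.exists_isMaxOn hne (cA.norm.sup cB.norm)
  obtain ⟨s, hs, hmaxs⟩ := isCompact_Icc.exists_isMaxOn hne (cA.add cB).norm
  obtain ⟨M, hM⟩ : ∃ M : ℝ, M = max ‖A r0‖ ‖B r0‖ := ⟨_, rfl⟩
  obtain ⟨c, hc⟩ : ∃ c : ℝ, c = ‖A s + B s‖ := ⟨_, rfl⟩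
  have hM1 : ∀ r ∈ Icc 0 T, max ‖A r‖ ‖B r‖ ≤ M := fun r hr => by
    rw [hM]; exact hmax hr
  have hM2 : ∀ r ∈ Icc 0 T, ‖A r‖ ≤ M ∧ ‖B r‖ ≤ M := fun r hr =>
    ⟨(le_max_left _ _).trans (hM1 r hr), (le_max_right _ _).trans (hM1 r hr)⟩
  have hc1 : ∀ r ∈ Icc 0 T, ‖A r + B r‖ ≤ c := fun r hr => by
    rw [hc]; exact hmaxs hr
  have hM0 : 0 ≤ M := (norm_nonneg _).trans (hM2 0 ⟨le_rfl, hT.1⟩).1
  have hc0 : 0 < c := by
    have h1 := hc1 0 ⟨le_rfl, hT.1⟩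
    rw [h.A0, h.B0, add_zero, Complex.norm_real, Real.norm_eq_abs, abs_of_pos h.hE] at h1
    exact h.hE.trans_le h1
  have he := herr T hT M hM2
  have hFH : ∀ r ∈ Icc 0 T, ‖F r‖ ≤ κ * M ∧ ‖H r‖ ≤ κ * M := by
    intro r hr
    obtain ⟨s', hs', hF, hH⟩ := h.small r (hsub hr)
    have hm := hM1 s' ⟨hs'.1, hs'.2.trans hr.2⟩
    exact ⟨hF.trans (mul_le_mul_of_nonneg_left hm h.hκ),
      hH.trans (mul_le_mul_of_nonneg_left hm h.hκ)⟩
  have hMc : M ^ 2 ≤ c ^ 2 + 4 * κ * M ^ 2 := by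
    have h1 := sumsq_le (A r0) (B r0) (S r0) _ (hS r0 (hsub hr0)).2 (he r0 hr0)
    have h2 : ‖A r0 + B r0‖ ^ 2 ≤ c ^ 2 := pow_le_pow_left₀ (norm_nonneg _) (hc1 r0 hr0) 2
    have h3 : M ^ 2 ≤ ‖A r0‖ ^ 2 + ‖B r0‖ ^ 2 := by
      rw [hM]
      rcases le_total ‖A r0‖ ‖B r0‖ with h4 | h4
      · rw [max_eq_right h4]
        have := sq_nonneg ‖A r0‖
        linarith
      · rw [max_eq_left h4]
        have := sq_nonneg ‖B r0‖
        linarith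
    linarith
  have hb := boot h hpr S hS T hT M c hc0 he hFH hMc s hs hc.symm hc1
  have hN : 0 < ‖A T + B T‖ ^ 2 := by
    refine lt_of_lt_of_le ?_ hb
    have : 0 < c ^ 2 := by positivity
    have h2 : 0 < 1 - 44 / 10 * κ := by linarith
    exact mul_pos this h2
  have hN' : 0 < ‖A T + B T‖ := by
    rcases (norm_nonneg (A T + B T)).eq_or_lt with h0 | h0
    · rw [← h0] at hN; norm_num at hN
    · exact h0
  refine ⟨hN', M, hM0, fun r hr => ⟨(hM2 r hr).1, (hM2 r hr).2, hFH r hr⟩, ?_, S T,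
    (hS T hT).1, (hS T hT).2, he T ⟨hT.1, le_rfl⟩⟩
  have k1 : M ^ 2 * (1 - 4 * κ) ≤ c ^ 2 := by linarith
  have k2 : 0 ≤ 1 - 44 / 10 * κ := by linarith
  have k3 : M ^ 2 * (1 - 4 * κ) * (1 - 44 / 10 * κ) ≤ ‖A T + B T‖ ^ 2 :=
    (mul_le_mul_of_nonneg_right k1 k2).trans hb
  have k4 : 0 ≤ 1 + 9 * κ := by linarith
  have k5 := mul_le_mul_of_nonneg_left k3 k4
  refine le_trans ?_ k5
  have k6 : 1 ≤ (1 + 9 * κ) * ((1 - 4 * κ) * (1 - 44 / 10 * κ)) := by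
    nlinarith [mul_nonneg hκ (sub_nonneg.2 hκ'), mul_nonneg (mul_nonneg hκ hκ) hκ]
  have k7 := mul_le_mul_of_nonneg_left k6 (sq_nonneg M)
  linarith

/-- a linear differential inequality -/
theorem growth (u u' : ℝ → ℝ) (K s t : ℝ) (hst : s ≤ t)
    (hu : ∀ r ∈ Icc s t, HasDerivWithinAt u (u' r) (Icc s t) r)
    (hK : ∀ r ∈ Icc s t, K * u r ≤ u' r) : u s * Real.exp (K * (t - s)) ≤ u t := by
  have hd : ∀ r ∈ Icc s t, HasDerivWithinAt (fun r => u r * Real.exp (-(K * (r - s))))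
      (u' r * Real.exp (-(K * (r - s))) + u r * (Real.exp (-(K * (r - s))) * (-K)))
      (Icc s t) r := by
    intro r hr
    have h1 : HasDerivAt (fun r => Real.exp (-(K * (r - s))))
        (Real.exp (-(K * (r - s))) * (-K)) r := by
      have h2 : HasDerivAt (fun r => -(K * (r - s))) (-K) r := by
        have h3 := (((hasDerivAt_id r).sub_const s).const_mul K).neg
        rw [mul_one] at h3
        exact h3
      exact h2.exp
    exact (hu r hr).mul h1.hasDerivWithinAt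
  have hm : MonotoneOn (fun r => u r * Real.exp (-(K * (r - s)))) (Icc s t) := by
    refine monotoneOn_of_deriv_nonneg (convex_Icc s t)
      (fun r hr => (hd r hr).continuousWithinAt) ?_ ?_
    · intro r hr
      rw [interior_Icc] at hr
      exact ((hd r ⟨hr.1.le, hr.2.le⟩).hasDerivAt (Icc_mem_nhds hr.1 hr.2)).differentiableAt.differentiableWithinAt
    · intro r hr
      rw [interior_Icc] at hr
      rw [((hd r ⟨hr.1.le, hr.2.le⟩).hasDerivAt (Icc_mem_nhds hr.1 hr.2)).deriv]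
      have h1 := hK r ⟨hr.1.le, hr.2.le⟩
      have h2 := Real.exp_pos (-(K * (r - s)))
      nlinarith [mul_le_mul_of_nonneg_right h1 h2.le]
  have h3 := hm (left_mem_Icc.2 hst) (right_mem_Icc.2 hst) hst
  simp only [sub_self, mul_zero, neg_zero, Real.exp_zero, mul_one] at h3
  have h4 := mul_le_mul_of_nonneg_right h3 (Real.exp_pos (K * (t - s))).le
  rw [mul_assoc, ← Real.exp_add, neg_add_cancel, Real.exp_zero, mul_one] at h4
  exact h4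

/-- bounds at a fixed time -/
theorem fixT (h : PairF ρ τ κ E θ p A B F H) (hpr : ∀ t ∈ Icc (0 : ℝ) θ, 0 ≤ (p t).re) :
    ∀ t ∈ Icc (0 : ℝ) θ, 0 < ‖A t + B t‖ ∧ 48 / 100 * ‖A t + B t‖ ≤ ‖A t‖ ∧
    ‖A t‖ ^ 2 + ‖B t‖ ^ 2 ≤ 102 / 100 * ‖A t + B t‖ ^ 2 ∧
    -(5 * κ * ‖A t + B t‖ ^ 2) ≤ ‖A t‖ ^ 2 - ‖B t‖ ^ 2 ∧
    ‖F t‖ ≤ 2 * κ * ‖A t + B t‖ ∧ ‖H t‖ ≤ 2 * κ * ‖A t + B t‖ ∧
    (∃ S : ℂ, |S.im| ≤ τ * S.re ∧ ‖B t * conj (A t) - S‖ ≤ 3 * κ * ‖A t + B t‖ ^ 2) ∧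
    (19 / 10 * ρ * ‖p t‖ - 5 * κ) * ‖A t + B t‖ ^ 2 ≤
      2 * (((ρ : ℂ) * conj (p t) * B t + F t + ((ρ : ℂ) * p t * A t + H t)) *
        conj (A t + B t)).re := by
  intro t ht
  have hκ := h.hκ
  have hκ' := h.hκ'
  obtain ⟨hN, M, hM0, hM, hMN, S, hS1, hS2, he⟩ := key h hpr t ht
  obtain ⟨a1, a2, a3, a4⟩ := hM t ⟨ht.1, le_rfl⟩
  have hq := qlow h t ht M hM
  obtain ⟨N, hNdef⟩ : ∃ N : ℝ, N = ‖A t + B t‖ := ⟨_, rfl⟩
  rw [← hNdef] at hN hMN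
  have hN2 : 0 < N ^ 2 := by positivity
  have hMN' : M ^ 2 ≤ 1001 / 1000 * N ^ 2 := by nlinarith
  have hM2N : M ≤ 2 * N := by nlinarith
  have hκM : κ * M ^ 2 ≤ κ * (1001 / 1000 * N ^ 2) := mul_le_mul_of_nonneg_left hMN' hκ
  have hκN : 0 ≤ κ * N ^ 2 := by positivity
  have hκN' : κ * N ^ 2 ≤ 1 / 10 ^ 4 * N ^ 2 := mul_le_mul_of_nonneg_right hκ' hN2.le
  have hsum : ‖A t‖ ^ 2 + ‖B t‖ ^ 2 ≤ 102 / 100 * N ^ 2 := by
    have h1 := sumsq_le (A t) (B t) S _ hS2 he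
    rw [← hNdef] at h1
    nlinarith
  have hQ : -(5 * κ * N ^ 2) ≤ ‖A t‖ ^ 2 - ‖B t‖ ^ 2 := by nlinarith
  have hF : κ * M ≤ 2 * κ * N := by nlinarith [mul_le_mul_of_nonneg_left hM2N hκ]
  have hA : 48 / 100 * N ≤ ‖A t‖ := by
    have h1 : N ^ 2 ≤ 2 * (‖A t‖ ^ 2 + ‖B t‖ ^ 2) := by
      have h2 : N ≤ ‖A t‖ + ‖B t‖ := by rw [hNdef]; exact norm_add_le _ _
      have h3 : N ^ 2 ≤ (‖A t‖ + ‖B t‖) ^ 2 := pow_le_pow_left₀ hN.le h2 2
      nlinarith [sq_nonneg (‖A t‖ - ‖B t‖)]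
    have h4 : (48 / 100 * N) ^ 2 ≤ ‖A t‖ ^ 2 := by nlinarith
    exact (pow_le_pow_iff_left₀ (by positivity) (norm_nonneg _) two_ne_zero).1 h4
  rw [← hNdef]
  refine ⟨hN, hA, hsum, hQ, a3.trans hF, a4.trans hF, ⟨S, hS1, he.trans (by nlinarith)⟩, ?_⟩
  have h1 := alg ρ τ (2 * κ * M ^ 2) (κ * M) (p t) (A t) (B t) (F t) (H t) S
      (zero_le_one.trans h.hρ) h.hτ.le h.hτ' (h.ps t ht).1 (hpr t ht) hS1 he a3 a4
  rw [← hNdef] at h1
  refine le_trans ?_ h1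
  have hp : 995 / 1000 * ‖p t‖ ≤ (p t).re := by
    have b1 : |(p t).im| ≤ 1 / 10 * (p t).re :=
      (h.ps t ht).1.trans (mul_le_mul_of_nonneg_right h.hτ' (hpr t ht))
    have b2 : (p t).im ^ 2 ≤ (1 / 10 * (p t).re) ^ 2 := by
      rw [← sq_abs]; exact pow_le_pow_left₀ (abs_nonneg _) b1 2
    have b3 : ‖p t‖ ^ 2 = (p t).re ^ 2 + (p t).im ^ 2 := by
      rw [← Complex.normSq_eq_norm_sq, Complex.normSq_apply]; ring
    have b4 : (995 / 1000 * ‖p t‖) ^ 2 ≤ (p t).re ^ 2 := by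
      rw [mul_pow, b3]; nlinarith [sq_nonneg (p t).re]
    exact (pow_le_pow_iff_left₀ (by positivity) (hpr t ht) two_ne_zero).1 b4
  have hρ : 0 ≤ ρ := zero_le_one.trans h.hρ
  have c1 : 994 / 1000 * N ^ 2 ≤ 995 / 1000 * N ^ 2 - 22 / 100 * (2 * κ * M ^ 2) := by nlinarith
  have c2 : 19 / 10 * ρ * ‖p t‖ * N ^ 2 ≤
      2 * ρ * (p t).re * (995 / 1000 * N ^ 2 - 22 / 100 * (2 * κ * M ^ 2)) := by
    have d1 : 2 * ρ * (995 / 1000 * ‖p t‖) ≤ 2 * ρ * (p t).re :=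
      mul_le_mul_of_nonneg_left hp (by positivity)
    have d2 : 2 * ρ * (995 / 1000 * ‖p t‖) * (994 / 1000 * N ^ 2) ≤
        2 * ρ * (p t).re * (995 / 1000 * N ^ 2 - 22 / 100 * (2 * κ * M ^ 2)) :=
      mul_le_mul d1 c1 (by positivity) (by have := hpr t ht; positivity)
    refine le_trans ?_ d2
    have d3 : 0 ≤ ρ * ‖p t‖ * N ^ 2 := by positivity
    nlinarith
  have c3 : 4 * (κ * M) * N ≤ 5 * κ * N ^ 2 := by
    have d1 : M * N ≤ 11 / 10 * N ^ 2 := by nlinarith [sq_nonneg (M - N)]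
    nlinarith [mul_le_mul_of_nonneg_left d1 hκ]
  linarith

/-- growth of a driven pair, under the additional assumption that `p` has nonnegative real
part -/
theorem main (h : PairF ρ τ κ E θ p A B F H) (hpr : ∀ t ∈ Icc (0 : ℝ) θ, 0 ≤ (p t).re) :
    (∀ t ∈ Icc (0 : ℝ) θ, 0 < ‖A t + B t‖ ∧ 48 / 100 * ‖A t + B t‖ ≤ ‖A t‖ ∧
      ‖A t‖ ^ 2 + ‖B t‖ ^ 2 ≤ 102 / 100 * ‖A t + B t‖ ^ 2) ∧
    (∀ s t c : ℝ, 0 ≤ s → s ≤ t → t ≤ θ → 0 ≤ c → (∀ r ∈ Icc s t, c ≤ ‖p r‖) →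
      ‖A s + B s‖ * Real.exp (9 / 10 * ρ * c * (t - s)) ≤ 101 / 100 * ‖A t + B t‖) ∧
    (∀ s t : ℝ, 0 ≤ s → s ≤ t → t ≤ θ →
      ‖A t + B t‖ ≤ ‖A s + B s‖ * Real.exp (3 * ρ * (t - s))) ∧
    (∀ t ∈ Icc (0 : ℝ) θ, -(5 * κ * ‖A t + B t‖ ^ 2) ≤ ‖A t‖ ^ 2 - ‖B t‖ ^ 2 ∧
      ‖F t‖ ≤ 2 * κ * ‖A t + B t‖ ∧ ‖H t‖ ≤ 2 * κ * ‖A t + B t‖ ∧
      (∃ S : ℂ, |S.im| ≤ τ * S.re ∧ ‖B t * conj (A t) - S‖ ≤ 3 * κ * ‖A t + B t‖ ^ 2) ∧
      (19 / 10 * ρ * ‖p t‖ - 5 * κ) * ‖A t + B t‖ ^ 2 ≤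
        2 * (((ρ : ℂ) * conj (p t) * B t + F t + ((ρ : ℂ) * p t * A t + H t)) *
          conj (A t + B t)).re) := by
  have hκ := h.hκ
  have hκ' := h.hκ'
  have hρ : 0 ≤ ρ := zero_le_one.trans h.hρ
  have hfix := fixT h hpr
  refine ⟨fun t ht => ⟨(hfix t ht).1, (hfix t ht).2.1, (hfix t ht).2.2.1⟩, ?_, ?_,
    fun t ht => (hfix t ht).2.2.2⟩
  · intro s t c hs hst htθ hc hpc
    have hsub : Icc s t ⊆ Icc 0 θ := Icc_subset_Icc hs htθ
    have h1 := growth (fun r => ‖A r + B r‖ ^ 2) _ (19 / 10 * ρ * c - 5 * κ) s t hst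
      (fun r hr => (dN2 h r (hsub hr)).mono hsub) (by
        intro r hr
        refine le_trans ?_ (hfix r (hsub hr)).2.2.2.2.2.2.2
        refine mul_le_mul_of_nonneg_right ?_ (sq_nonneg _)
        have := mul_le_mul_of_nonneg_left (hpc r hr) (show 0 ≤ 19 / 10 * ρ by positivity)
        linarith)
    have hts : t - s ≤ 1 := by linarith [h.hθ']
    have hts0 : 0 ≤ t - s := by linarith
    have h2 : Real.exp (2 * (9 / 10 * ρ * c * (t - s))) * (1 - 5 * κ) ≤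
        Real.exp ((19 / 10 * ρ * c - 5 * κ) * (t - s)) := by
      have e1 : 1 - 5 * κ ≤ Real.exp (-(5 * κ)) := by
        have := Real.add_one_le_exp (-(5 * κ)); linarith
      have e2 : Real.exp (2 * (9 / 10 * ρ * c * (t - s))) * (1 - 5 * κ) ≤
          Real.exp (2 * (9 / 10 * ρ * c * (t - s))) * Real.exp (-(5 * κ)) :=
        mul_le_mul_of_nonneg_left e1 (Real.exp_pos _).le
      refine e2.trans ?_
      rw [← Real.exp_add, Real.exp_le_exp]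
      have e3 : 5 * κ * (t - s) ≤ 5 * κ := by nlinarith
      have e4 : 0 ≤ ρ * c * (t - s) := by positivity
      nlinarith
    have h3 : (‖A s + B s‖ * Real.exp (9 / 10 * ρ * c * (t - s))) ^ 2 ≤
        (101 / 100 * ‖A t + B t‖) ^ 2 := by
      have e5 : Real.exp (9 / 10 * ρ * c * (t - s)) ^ 2 =
          Real.exp (2 * (9 / 10 * ρ * c * (t - s))) := by
        rw [← Real.exp_nat_mul]; norm_num
      rw [mul_pow, mul_pow, e5]
      have e6 := mul_le_mul_of_nonneg_left h2 (sq_nonneg ‖A s + B s‖)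
      have e7 : 0 ≤ ‖A s + B s‖ ^ 2 * Real.exp (2 * (9 / 10 * ρ * c * (t - s))) := by positivity
      have e8 : ‖A s + B s‖ ^ 2 * Real.exp (2 * (9 / 10 * ρ * c * (t - s))) * (1 - 5 * κ) ≤
          ‖A t + B t‖ ^ 2 := by
        refine le_trans ?_ h1
        linarith
      nlinarith
    exact (pow_le_pow_iff_left₀ (by positivity) (by positivity) two_ne_zero).1 h3
  · intro s t hs hst htθ
    have hsub : Icc s t ⊆ Icc 0 θ := Icc_subset_Icc hs htθ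
    have h1 := growth (fun r => -‖A r + B r‖ ^ 2) _ (6 * ρ) s t hst
      (fun r hr => ((dN2 h r (hsub hr)).mono hsub).neg) (by
        intro r hr
        obtain ⟨f1, f2, f3, f4, f5, f6, f7, f8⟩ := hfix r (hsub hr)
        have g1 : ‖A r‖ + ‖B r‖ ≤ 3 / 2 * ‖A r + B r‖ := by
          have : (‖A r‖ + ‖B r‖) ^ 2 ≤ (3 / 2 * ‖A r + B r‖) ^ 2 := by
            nlinarith [sq_nonneg (‖A r‖ - ‖B r‖), sq_nonneg ‖A r + B r‖]
          exact (pow_le_pow_iff_left₀ (by positivity) (by positivity) two_ne_zero).1 this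
        have g2 : ‖(ρ : ℂ) * conj (p r) * B r‖ ≤ ρ * ‖B r‖ := by
          rw [norm_mul, norm_mul, RCLike.norm_conj, Complex.norm_real, Real.norm_eq_abs,
            abs_of_nonneg hρ]
          refine mul_le_mul_of_nonneg_right ?_ (norm_nonneg _)
          nlinarith [mul_le_mul_of_nonneg_left (h.ps r (hsub hr)).2 hρ]
        have g3 : ‖(ρ : ℂ) * p r * A r‖ ≤ ρ * ‖A r‖ := by
          rw [norm_mul, norm_mul, Complex.norm_real, Real.norm_eq_abs, abs_of_nonneg hρ]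
          refine mul_le_mul_of_nonneg_right ?_ (norm_nonneg _)
          nlinarith [mul_le_mul_of_nonneg_left (h.ps r (hsub hr)).2 hρ]
        have g4 : ‖(ρ : ℂ) * conj (p r) * B r + F r + ((ρ : ℂ) * p r * A r + H r)‖ ≤
            3 * ρ * ‖A r + B r‖ := by
          have k1 := norm_add_le ((ρ : ℂ) * conj (p r) * B r + F r) ((ρ : ℂ) * p r * A r + H r)
          have k2 := norm_add_le ((ρ : ℂ) * conj (p r) * B r) (F r)
          have k3 := norm_add_le ((ρ : ℂ) * p r * A r) (H r)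
          have k4 := mul_le_mul_of_nonneg_left g1 hρ
          have k5 : κ * ‖A r + B r‖ ≤ 1 / 10 ^ 4 * ‖A r + B r‖ :=
            mul_le_mul_of_nonneg_right hκ' f1.le
          have k6 : ‖A r + B r‖ ≤ ρ * ‖A r + B r‖ := by nlinarith [h.hρ]
          nlinarith
        have g5 : (((ρ : ℂ) * conj (p r) * B r + F r + ((ρ : ℂ) * p r * A r + H r)) *
            conj (A r + B r)).re ≤ 3 * ρ * ‖A r + B r‖ * ‖A r + B r‖ := by
          refine (Complex.re_le_norm _).trans ?_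
          rw [norm_mul, RCLike.norm_conj]
          exact mul_le_mul_of_nonneg_right g4 f1.le
        nlinarith)
    have h2 : ‖A t + B t‖ ^ 2 ≤ (‖A s + B s‖ * Real.exp (3 * ρ * (t - s))) ^ 2 := by
      have e5 : Real.exp (3 * ρ * (t - s)) ^ 2 = Real.exp (6 * ρ * (t - s)) := by
        rw [← Real.exp_nat_mul]; congr 1; push_cast; ring
      rw [mul_pow, e5]
      linarith
    exact (pow_le_pow_iff_left₀ (by positivity) (by positivity) two_ne_zero).1 h2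

end

/-- growth of a driven pair -/
theorem t_PAIRA : Pool.Agent.Y6.F.S_PAIRA := by
  intro ρ τ κ E θ p A B F H h
  refine main h fun t ht => ?_
  have h1 := (abs_nonneg _).trans (h.ps t ht).1
  have hτ : 0 < τ := h.hτ
  by_contra hcon
  push Not at hcon
  nlinarith

end Pool.Agent.Y141.EF.Paira
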